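import Mathlib

/-!
A `4 × 4` integer matrix with all entries between `2` and `6`, of determinant `1`, whose
entrywise cube also has determinant `1`.
-/

namespace Pool.Agent.Results.MP_52c232_nt.OrderFour

/-- There is a `4 × 4` integer matrix `A`, all of whose entries are at least `2`, such that
both `A` and the matrix of the cubes of the entries of `A` have determinant `1`. -/
theorem result : ∃ A : Matrix (Fin 4) (Fin 4) ℤ,
    (∀ i j, 2 ≤ A i j) ∧ A.det = 1 ∧ (A.map (fun x => x ^ 3)).det = 1 := by
  refine ⟨!![2, 4, 3, 2; 2, 5, 5, 2; 5, 6, 5, 3; 5, 3, 2, 2], ?_, ?_, ?_⟩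
  · intro i j
    fin_cases i <;> fin_cases j <;> simp
  · simp [Matrix.det_succ_row_zero, Fin.sum_univ_succ, Matrix.submatrix, Fin.succAbove]
  · simp [Matrix.det_succ_row_zero, Fin.sum_univ_succ, Matrix.submatrix, Fin.succAbove]

end Pool.Agent.Results.MP_52c232_nt.OrderFour
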